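import Mathlib
import Pool.Agent.T9h24.Ls.Spec

/-!
The exact number of monomials of given order along a linear subspace, and the choice of the degree.
-/

set_option autoImplicit false

open Finset Filter

namespace Pool.Agent.T9h58.Ls

open Pool.Agent.T9h24 (AD NN mem_AD NN_eq)
open Pool.Agent.T9h24.Ls

/-- splitting off the first coordinate -/
theorem sum_AD_succ (n d : ℕ) (f : (Fin (n + 2) →₀ ℕ) → ℕ) :
    ∑ a ∈ AD (n + 1) d, f a = ∑ s ∈ Finset.range (d + 1), ∑ b ∈ AD n (d - s),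
      f (Finsupp.cons s b) := by
  classical
  rw [Finset.sum_sigma']
  refine Finset.sum_bij' (fun a _ => (⟨a 0, Finsupp.tail a⟩ : Σ _ : ℕ, (Fin (n + 1) →₀ ℕ)))
    (fun p _ => Finsupp.cons p.1 p.2) ?_ ?_ ?_ ?_ ?_
  · intro a ha
    rw [mem_AD, Finsupp.degree_eq_sum, Fin.sum_univ_succ] at ha
    rw [Finset.mem_sigma, Finset.mem_range, mem_AD, Finsupp.degree_eq_sum]
    refine ⟨by simp only; omega, ?_⟩
    simp only [Finsupp.tail_apply]
    omega
  · intro p hp
    rw [Finset.mem_sigma, Finset.mem_range, mem_AD, Finsupp.degree_eq_sum] at hp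
    rw [mem_AD, Finsupp.degree_eq_sum, Fin.sum_univ_succ]
    simp only [Finsupp.cons_zero, Finsupp.cons_succ]
    omega
  · intro a _
    exact Finsupp.cons_tail a
  · intro p _
    simp [Finsupp.tail_cons]
  · intro a _
    rw [Finsupp.cons_tail]

theorem PK_zero_left (n d θ : ℕ) : PK n d 0 θ = θ * NN n d := by
  unfold PK NN
  simp [mul_comm]

theorem PK_succ (n d k θ : ℕ) (h : θ ≤ d) :
    PK (n + 1) d (k + 1) θ = ∑ s ∈ Finset.range (θ + 1), PK n (d - s) k (θ - s) := by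
  unfold PK
  rw [sum_AD_succ]
  have e : ∀ s, ∀ b : Fin (n + 1) →₀ ℕ, ∑ l ∈ Finset.univ.filter (fun l : Fin (n + 2) =>
      (l : ℕ) < k + 1), (Finsupp.cons s b : Fin (n + 2) →₀ ℕ) l =
      s + ∑ l ∈ Finset.univ.filter (fun l : Fin (n + 1) => (l : ℕ) < k), b l := by
    intro s b
    rw [Finset.sum_filter, Fin.sum_univ_succ, Finset.sum_filter]
    simp only [Fin.val_zero, Finsupp.cons_zero, Fin.val_succ, Finsupp.cons_succ,
      Nat.add_lt_add_iff_right]
    simp
  simp only [e]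
  have h1 : Finset.range (θ + 1) ⊆ Finset.range (d + 1) := by
    intro x hx
    rw [Finset.mem_range] at hx ⊢
    omega
  rw [← Finset.sum_subset h1]
  · refine Finset.sum_congr rfl fun s _ => Finset.sum_congr rfl fun b _ => ?_
    omega
  · intro s _ hs
    rw [Finset.mem_range] at hs
    exact Finset.sum_eq_zero fun b _ => by omega

/-- hockey stick -/
theorem sum_choose_add (k j : ℕ) (h : k ≤ j) : ∀ θ : ℕ,
    ∑ s ∈ Finset.range (θ + 1), (θ - s + k).choose j = (θ + k + 1).choose (j + 1)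
  | 0 => by
    rw [zero_add, Finset.sum_range_one, Nat.sub_self, zero_add, Nat.choose_succ_succ,
      Nat.choose_eq_zero_of_lt (show k < j + 1 by omega), add_zero]
  | θ + 1 => by
    rw [Finset.sum_range_succ']
    have := sum_choose_add k j h θ
    have e : ∑ s ∈ Finset.range (θ + 1), (θ + 1 - (s + 1) + k).choose j =
        ∑ s ∈ Finset.range (θ + 1), (θ - s + k).choose j :=
      Finset.sum_congr rfl fun s _ => by rw [show θ + 1 - (s + 1) = θ - s by omega]
    rw [e, this, Nat.sub_zero, show θ + 1 + k + 1 = (θ + k + 1) + 1 by ring,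
      Nat.choose_succ_succ (θ + k + 1) j, show θ + 1 + k = θ + k + 1 by ring, add_comm]

/-- the exact value -/
theorem PK_eq : ∀ (k n d θ : ℕ), k ≤ n → θ ≤ d → PK n d k θ =
    ∑ j ∈ Finset.range (n + 2), (j - k) * ((θ + k).choose j *
      (d + n + 1 - θ - k).choose (n + 1 - j))
  | 0, n, d, θ, _, h => by
    rw [PK_zero_left, NN_eq, Finset.sum_range_succ']
    simp only [Nat.sub_zero, zero_mul, add_zero]
    rcases Nat.eq_zero_or_pos θ with rfl | hθ
    · simp
    · obtain ⟨t, rfl⟩ := Nat.exists_eq_succ_of_ne_zero hθ.ne'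
      have e : ∀ j ∈ Finset.range (n + 1), (j + 1) * ((t + 1).choose (j + 1) *
          (d + n + 1 - (t + 1)).choose (n + 1 - (j + 1))) =
          (t + 1) * (t.choose j * (d + n - t).choose (n - j)) := by
        intro j _
        have h1 := Nat.add_one_mul_choose_eq t j
        have h2 : (j + 1) * (t + 1).choose (j + 1) = (t + 1) * t.choose j := by
          rw [mul_comm]; exact h1.symm
        rw [← mul_assoc, h2, mul_assoc, show d + n + 1 - (t + 1) = d + n - t by omega,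
          show n + 1 - (j + 1) = n - j by omega]
      rw [Nat.succ_eq_add_one, Finset.sum_congr rfl e, ← Finset.mul_sum]
      have h3 := Nat.add_choose_eq t (d + n - t) n
      rw [Finset.Nat.sum_antidiagonal_eq_sum_range_succ_mk,
        show t + (d + n - t) = d + n by omega] at h3
      rw [h3]
  | k + 1, n, d, θ, hk, h => by
    obtain ⟨m, rfl⟩ := Nat.exists_eq_succ_of_ne_zero (show n ≠ 0 by omega)
    rw [Nat.succ_eq_add_one] at hk ⊢
    rw [PK_succ _ _ _ _ h, Finset.sum_range_succ' _ (m + 2)]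
    have e1 : ∀ s ∈ Finset.range (θ + 1), PK m (d - s) k (θ - s) =
        ∑ j ∈ Finset.range (m + 2), (j - k) * ((θ - s + k).choose j *
          (d + m + 1 - θ - k).choose (m + 1 - j)) := by
      intro s hs
      rw [Finset.mem_range] at hs
      rw [PK_eq k m (d - s) (θ - s) (by omega) (by omega),
        show d - s + m + 1 - (θ - s) - k = d + m + 1 - θ - k by omega]
    rw [Finset.sum_congr rfl e1, Finset.sum_comm]
    simp only [Nat.zero_sub, zero_mul, add_zero]
    refine Finset.sum_congr rfl fun j _ => ?_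
    rw [← Finset.mul_sum, ← Finset.sum_mul, show j + 1 - (k + 1) = j - k by omega,
      show d + (m + 1) + 1 - θ - (k + 1) = d + m + 1 - θ - k by omega,
      show m + 1 + 1 - (j + 1) = m + 1 - j by omega, show θ + (k + 1) = θ + k + 1 by ring]
    rcases Nat.lt_or_ge j k with hj | hj
    · rw [show j - k = 0 by omega, zero_mul, zero_mul]
    · rw [sum_choose_add k j hj]

/-- the polynomial of the upper bound -/
noncomputable def tp (n k : ℕ) (x y : ℝ) : ℝ :=
  (∑ j ∈ Finset.range (n + 2), ((j - k : ℕ) : ℝ) * ((n + 1).choose j) * x ^ j *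
    y ^ (n + 1 - j)) / (n + 1)

theorem choose_le (a b : ℕ) : (b.factorial : ℝ) * (a.choose b : ℝ) ≤ (a : ℝ) ^ b := by
  have h : b.factorial * a.choose b ≤ a ^ b := by
    rw [← Nat.descFactorial_eq_factorial_mul_choose]
    exact Nat.descFactorial_le_pow _ _
  exact_mod_cast h

/-- the upper bound for the sum of the orders -/
theorem PK_le (n k d θ : ℕ) (hk : k ≤ n) (hd : 1 ≤ d) (h : θ ≤ d) :
    (PK n d k θ : ℝ) ≤ d * NN n d * tp n k (((θ : ℝ) + k) / d)
      (((d : ℝ) + n + 1 - θ - k) / d) := by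
  have hd0 : (0 : ℝ) < d := by exact_mod_cast hd
  have hn0 : (0 : ℝ) < (n : ℝ) + 1 := by positivity
  have hN : (d : ℝ) ^ n ≤ (n.factorial : ℝ) * NN n d := by
    rw [NN_eq]
    have h1 : (d + n + 1 - n) ^ n ≤ n.factorial * (d + n).choose n := by
      rw [← Nat.descFactorial_eq_factorial_mul_choose]
      exact Nat.pow_sub_le_descFactorial _ _
    rw [show d + n + 1 - n = d + 1 by omega] at h1
    have h2 : d ^ n ≤ n.factorial * (d + n).choose n :=
      (Nat.pow_le_pow_left (by omega) n).trans h1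
    exact_mod_cast h2
  have hcast : ((d + n + 1 - θ - k : ℕ) : ℝ) = (d : ℝ) + n + 1 - θ - k := by
    rw [Nat.cast_sub (by omega), Nat.cast_sub (by omega)]
    push_cast; ring
  have hy0 : 0 ≤ (d : ℝ) + n + 1 - θ - k := by rw [← hcast]; positivity
  rw [PK_eq k n d θ hk h, tp]
  push_cast
  rw [mul_div_assoc', le_div_iff₀ hn0, Finset.sum_mul, Finset.mul_sum]
  refine Finset.sum_le_sum fun j hj => ?_
  rw [Finset.mem_range] at hj
  have hj' : j ≤ n + 1 := by omega
  -- the factorials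
  have h1 := choose_le (θ + k) j
  have h2 := choose_le (d + n + 1 - θ - k) (n + 1 - j)
  rw [hcast] at h2
  have hf : ((n + 1).choose j : ℝ) * (j.factorial * (n + 1 - j).factorial) =
      (n + 1) * n.factorial := by
    have := Nat.choose_mul_factorial_mul_factorial hj'
    have h3 : (n + 1).choose j * (j.factorial * (n + 1 - j).factorial) = (n + 1) * n.factorial := by
      rw [← mul_assoc, this, Nat.factorial_succ]
    exact_mod_cast h3
  have h3 : ((j.factorial : ℝ) * ((θ + k).choose j : ℕ)) * ((n + 1 - j).factorial *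
      ((d + n + 1 - θ - k).choose (n + 1 - j) : ℕ)) ≤
      ((θ : ℝ) + k) ^ j * ((d : ℝ) + n + 1 - θ - k) ^ (n + 1 - j) := by
    push_cast at h1
    exact mul_le_mul h1 h2 (by positivity) (by positivity)
  have hf0 : (0 : ℝ) < n.factorial := by exact_mod_cast Nat.factorial_pos n
  have h4 : (n.factorial : ℝ) * ((n + 1) * (((θ + k).choose j : ℕ) *
      ((d + n + 1 - θ - k).choose (n + 1 - j) : ℕ))) ≤ ((n + 1).choose j : ℝ) *
      (((θ : ℝ) + k) ^ j * ((d : ℝ) + n + 1 - θ - k) ^ (n + 1 - j)) := by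
    have h5 := mul_le_mul_of_nonneg_left h3 (Nat.cast_nonneg (α := ℝ) ((n + 1).choose j))
    refine le_trans (le_of_eq ?_) h5
    calc (n.factorial : ℝ) * ((n + 1) * (((θ + k).choose j : ℕ) *
        ((d + n + 1 - θ - k).choose (n + 1 - j) : ℕ)))
        = ((n + 1) * n.factorial) * (((θ + k).choose j : ℕ) *
        ((d + n + 1 - θ - k).choose (n + 1 - j) : ℕ)) := by ring
      _ = _ := by rw [← hf]; ring
  have h6 : (d : ℝ) ^ (n + 1) ≤ n.factorial * (d * NN n d) := by
    rw [pow_succ]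
    nlinarith
  -- division by powers of `d`
  have e1 : (((θ : ℝ) + k) / d) ^ j * (((d : ℝ) + n + 1 - θ - k) / d) ^ (n + 1 - j) =
      (((θ : ℝ) + k) ^ j * ((d : ℝ) + n + 1 - θ - k) ^ (n + 1 - j)) / d ^ (n + 1) := by
    rw [div_pow, div_pow, div_mul_div_comm, ← pow_add, Nat.add_sub_cancel' hj']
  have hX : (0 : ℝ) ≤ ((θ : ℝ) + k) ^ j * ((d : ℝ) + n + 1 - θ - k) ^ (n + 1 - j) := by positivity
  have h7 : ((n : ℝ) + 1) * (((θ + k).choose j : ℕ) *
      ((d + n + 1 - θ - k).choose (n + 1 - j) : ℕ)) ≤ d * NN n d * (((n + 1).choose j : ℝ) *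
      ((((θ : ℝ) + k) / d) ^ j * (((d : ℝ) + n + 1 - θ - k) / d) ^ (n + 1 - j))) := by
    rw [e1]
    have h8 : (0 : ℝ) < (d : ℝ) ^ (n + 1) := by positivity
    rw [mul_div_assoc', mul_div_assoc', le_div_iff₀ h8]
    refine le_of_mul_le_mul_left ?_ hf0
    calc (n.factorial : ℝ) * (((n : ℝ) + 1) * (((θ + k).choose j : ℕ) *
          ((d + n + 1 - θ - k).choose (n + 1 - j) : ℕ)) * d ^ (n + 1))
        = ((n.factorial : ℝ) * (((n : ℝ) + 1) * (((θ + k).choose j : ℕ) *
          ((d + n + 1 - θ - k).choose (n + 1 - j) : ℕ)))) * d ^ (n + 1) := by ring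
      _ ≤ (((n + 1).choose j : ℝ) *
          (((θ : ℝ) + k) ^ j * ((d : ℝ) + n + 1 - θ - k) ^ (n + 1 - j))) *
          (n.factorial * (d * NN n d)) := mul_le_mul h4 h6 h8.le (by positivity)
      _ = _ := by ring
  calc ((j - k : ℕ) : ℝ) * (((θ + k).choose j : ℕ) *
        ((d + n + 1 - θ - k).choose (n + 1 - j) : ℕ)) * ((n : ℝ) + 1)
      = ((j - k : ℕ) : ℝ) * (((n : ℝ) + 1) * (((θ + k).choose j : ℕ) *
        ((d + n + 1 - θ - k).choose (n + 1 - j) : ℕ))) := by ring
    _ ≤ ((j - k : ℕ) : ℝ) * (d * NN n d * (((n + 1).choose j : ℝ) *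
      ((((θ : ℝ) + k) / d) ^ j * (((d : ℝ) + n + 1 - θ - k) / d) ^ (n + 1 - j)))) :=
        mul_le_mul_of_nonneg_left h7 (by positivity)
    _ = _ := by ring

theorem tp_tl (n k : ℕ) (c : ℝ) : tp n k c (1 - c) = tl n k c := rfl

theorem continuous_tp (n k : ℕ) : Continuous fun p : ℝ × ℝ => tp n k p.1 p.2 := by
  unfold tp
  fun_prop

theorem PK_theta_zero (n d k : ℕ) : PK n d k 0 = 0 := by
  unfold PK
  simp

/-- one threshold -/
theorem one_theta (n k r : ℕ) (hk : k ≤ n) (u : Fin r) (hr : 1 ≤ r) (η : ℝ) (hη0 : 0 ≤ η)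
    (hη1 : η < 1) : ∃ θ : ℕ → ℕ, ∀ᶠ d : ℕ in atTop,
      ((d : ℝ) * NN n d) * (η * (r / (u + 1) * gk n k (((u : ℝ) + 1) / r))) ≤
        (θ d : ℝ) * NN n d - r / (u + 1) * PK n d k (θ d) := by
  have hr0 : (0 : ℝ) < r := by exact_mod_cast hr
  have hu0 : (0 : ℝ) < (u : ℝ) + 1 := by positivity
  set w : ℝ := ((u : ℝ) + 1) / r with hw
  have hw0 : 0 < w := by positivity
  have hrw : (r : ℝ) / (u + 1) = w⁻¹ := by rw [hw, inv_div]
  rcases le_or_gt (gk n k w) 0 with h | h
  · refine ⟨fun _ => 0, Eventually.of_forall fun d => ?_⟩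
    rw [PK_theta_zero]
    have h1 : η * (r / (u + 1) * gk n k w) ≤ 0 :=
      mul_nonpos_of_nonneg_of_nonpos hη0 (mul_nonpos_of_nonneg_of_nonpos (by positivity) h)
    have h2 : ((d : ℝ) * NN n d) * (η * (r / (u + 1) * gk n k w)) ≤ 0 :=
      mul_nonpos_of_nonneg_of_nonpos (by positivity) h1
    simpa using h2
  · have h1 : η * gk n k w < gk n k w := by nlinarith
    have hne : Nonempty (Set.Icc (0 : ℝ) 1) := ⟨⟨0, by simp⟩⟩
    obtain ⟨⟨c, hc0, hc1⟩, hc⟩ := exists_lt_of_lt_ciSup h1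
    simp only at hc
    refine ⟨fun d => ⌊c * d⌋₊, ?_⟩
    have l1 : Tendsto (fun d : ℕ => ((⌊c * d⌋₊ : ℕ) : ℝ) / d) atTop (nhds c) :=
      (tendsto_nat_floor_mul_div_atTop hc0).comp tendsto_natCast_atTop_atTop
    have l2 : Tendsto (fun d : ℕ => (((⌊c * d⌋₊ : ℕ) : ℝ) + k) / d) atTop (nhds c) := by
      have := l1.add (tendsto_const_div_atTop_nhds_zero_nat (k : ℝ))
      rw [add_zero] at this
      refine this.congr fun d => ?_
      rw [add_div]
    have l3 : Tendsto (fun d : ℕ => ((d : ℝ) + n + 1 - ((⌊c * d⌋₊ : ℕ) : ℝ) - k) / d) atTop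
        (nhds (1 - c)) := by
      have h4 := ((tendsto_const_nhds (x := (1 : ℝ)) (f := (atTop : Filter ℕ))).sub l2).add
        (tendsto_const_div_atTop_nhds_zero_nat ((n : ℝ) + 1))
      rw [add_zero] at h4
      refine h4.congr' ?_
      filter_upwards [eventually_ge_atTop 1] with d hd
      have hd0 : (0 : ℝ) < d := by exact_mod_cast hd
      field_simp
      ring
    have l4 : Tendsto (fun d : ℕ => w * (((⌊c * d⌋₊ : ℕ) : ℝ) / d) -
        tp n k ((((⌊c * d⌋₊ : ℕ) : ℝ) + k) / d)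
          (((d : ℝ) + n + 1 - ((⌊c * d⌋₊ : ℕ) : ℝ) - k) / d)) atTop
        (nhds (w * c - tl n k c)) := by
      refine (l1.const_mul w).sub ?_
      rw [← tp_tl]
      have h9 : Tendsto (fun p : ℝ × ℝ => tp n k p.1 p.2) (nhds (c, 1 - c))
          (nhds (tp n k c (1 - c))) := (continuous_tp n k).tendsto (c, 1 - c)
      have h10 := h9.comp (l2.prodMk_nhds l3)
      simp only [Function.comp_def] at h10
      exact h10
    have l5 := (tendsto_order.1 l4).1 (η * gk n k w) (by linarith [mul_comm c w])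
    filter_upwards [l5, eventually_ge_atTop 1] with d hd hd1
    have hd0 : (0 : ℝ) < d := by exact_mod_cast hd1
    have hθ : ⌊c * d⌋₊ ≤ d := by
      refine Nat.floor_le_of_le ?_
      nlinarith
    have hP := PK_le n k d ⌊c * d⌋₊ hk hd1 hθ
    rw [hrw]
    have hN0 : (0 : ℝ) ≤ d * NN n d := by positivity
    have h5 := mul_le_mul_of_nonneg_left hd.le hN0
    rw [mul_sub] at h5
    have h6 : (d : ℝ) * NN n d * (w * (((⌊c * d⌋₊ : ℕ) : ℝ) / d)) =
        w * (((⌊c * d⌋₊ : ℕ) : ℝ) * NN n d) := by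
      field_simp
    rw [h6] at h5
    have h7 : (d : ℝ) * NN n d * (η * gk n k w) ≤
        w * (((⌊c * d⌋₊ : ℕ) : ℝ) * NN n d) - PK n d k ⌊c * d⌋₊ := by linarith
    have h8 := mul_le_mul_of_nonneg_left h7 (inv_nonneg.2 hw0.le)
    calc (d : ℝ) * NN n d * (η * (w⁻¹ * gk n k w)) =
        w⁻¹ * ((d : ℝ) * NN n d * (η * gk n k w)) := by ring
      _ ≤ w⁻¹ * (w * (((⌊c * d⌋₊ : ℕ) : ℝ) * NN n d) - PK n d k ⌊c * d⌋₊) := h8
      _ = _ := by
        rw [mul_sub, ← mul_assoc, inv_mul_cancel₀ hw0.ne', one_mul]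

/-- **Piece (A).** -/
theorem stTheta : StTheta := by
  intro n r hn hr η hη0 hη1
  have h : ∀ k : ℕ, ∀ u : Fin r, ∃ θ : ℕ → ℕ, k ≤ n → ∀ᶠ d : ℕ in atTop,
      ((d : ℝ) * NN n d) * (η * (r / (u + 1) * gk n k (((u : ℝ) + 1) / r))) ≤
        (θ d : ℝ) * NN n d - r / (u + 1) * PK n d k (θ d) := by
    intro k u
    by_cases hk : k ≤ n
    · obtain ⟨θ, hθ⟩ := one_theta n k r hk u hr η hη0 hη1
      exact ⟨θ, fun _ => hθ⟩
    · exact ⟨fun _ => 0, fun h => absurd h hk⟩
  choose θ hθ using h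
  have h1 : ∀ᶠ d : ℕ in atTop, ∀ k ∈ Finset.range (n + 1), ∀ u : Fin r,
      ((d : ℝ) * NN n d) * (η * (r / (u + 1) * gk n k (((u : ℝ) + 1) / r))) ≤
        (θ k u d : ℝ) * NN n d - r / (u + 1) * PK n d k (θ k u d) := by
    rw [Filter.eventually_all_finset]
    intro k hk
    rw [Filter.eventually_all]
    intro u
    exact hθ k u (by rw [Finset.mem_range] at hk; omega)
  obtain ⟨d, hd, hd1⟩ := (h1.and (eventually_ge_atTop 1)).exists
  exact ⟨d, fun k u => θ k u d, hd1, fun k _ hk2 u =>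
    hd k (Finset.mem_range.2 (by omega)) u⟩

end Pool.Agent.T9h58.Ls
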