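import Mathlib
import Pool.Agent.T9h24.Ls.Spec

/-!
The values of the profile at the end points.
-/

set_option autoImplicit false

open Finset

namespace Pool.Agent.T9h58.Ls

open Pool.Agent.T9h24 (AD NN)
open Pool.Agent.T9h24.Ls

theorem sum_bin (N : ℕ) (c : ℝ) :
    ∑ j ∈ Finset.range (N + 1), ((N.choose j : ℕ) : ℝ) * c ^ j * (1 - c) ^ (N - j) = 1 := by
  have h := congrArg (Polynomial.eval c) (bernsteinPolynomial.sum ℝ N)
  rw [Polynomial.eval_finsetSum] at h
  simpa [bernsteinPolynomial] using h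

theorem sum_bin_mul (N : ℕ) (c : ℝ) :
    ∑ j ∈ Finset.range (N + 1), (j : ℝ) * ((N.choose j : ℕ) : ℝ) * c ^ j * (1 - c) ^ (N - j) =
      N * c := by
  have h := congrArg (Polynomial.eval c) (bernsteinPolynomial.sum_smul ℝ N)
  rw [Polynomial.eval_finsetSum] at h
  have h2 : ∑ j ∈ Finset.range (N + 1), (j : ℝ) * ((N.choose j : ℕ) : ℝ) * c ^ j *
      (1 - c) ^ (N - j) = ∑ j ∈ Finset.range (N + 1),
        Polynomial.eval c (j • bernsteinPolynomial ℝ N j) := by
    refine Finset.sum_congr rfl fun j _ => ?_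
    simp [bernsteinPolynomial]
    ring
  rw [h2, h]
  simp

/-- the summands of `tl` are nonnegative -/
theorem tl_nonneg (n k : ℕ) {c : ℝ} (h0 : 0 ≤ c) (h1 : c ≤ 1) : 0 ≤ tl n k c := by
  unfold tl
  have : 0 ≤ 1 - c := by linarith
  positivity

theorem tl_zero (n k : ℕ) : tl n k 0 = 0 := by
  unfold tl
  rw [Finset.sum_eq_zero, zero_div]
  intro j _
  rcases Nat.eq_zero_or_pos j with rfl | hj
  · simp
  · rw [zero_pow (by omega)]; ring

theorem tl_one (n k : ℕ) (hk : k ≤ n + 1) : tl n k 1 = 1 - k / (n + 1) := by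
  unfold tl
  have hn : (n : ℝ) + 1 ≠ 0 := by positivity
  rw [Finset.sum_eq_single (n + 1)]
  · rw [Nat.sub_self (n + 1)]
    simp only [Nat.choose_self, Nat.cast_one, one_pow, pow_zero, mul_one]
    rw [Nat.cast_sub hk]
    push_cast
    field_simp
  · intro j hj hj1
    rw [Finset.mem_range] at hj
    rw [sub_self, zero_pow (by omega), mul_zero]
  · intro h
    exact absurd (Finset.mem_range.2 (by omega)) h

/-- the lower bound by the mean -/
theorem le_tl (n k : ℕ) {c : ℝ} (h0 : 0 ≤ c) (h1 : c ≤ 1) : c - k / (n + 1) ≤ tl n k c := by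
  unfold tl
  have hn : (0 : ℝ) < (n : ℝ) + 1 := by positivity
  have hc : 0 ≤ 1 - c := by linarith
  rw [le_div_iff₀ hn]
  have e1 := sum_bin (n + 1) c
  have e2 := sum_bin_mul (n + 1) c
  have e3 : (c - k / (n + 1)) * ((n : ℝ) + 1) =
      ∑ j ∈ Finset.range (n + 2), ((j : ℝ) - k) * ((n + 1).choose j) * c ^ j *
        (1 - c) ^ (n + 1 - j) := by
    have : ∑ j ∈ Finset.range (n + 2), ((j : ℝ) - k) * ((n + 1).choose j) * c ^ j *
        (1 - c) ^ (n + 1 - j) = ∑ j ∈ Finset.range (n + 2), (j : ℝ) * ((n + 1).choose j) * c ^ j *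
        (1 - c) ^ (n + 1 - j) - k * ∑ j ∈ Finset.range (n + 2), (((n + 1).choose j : ℕ) : ℝ) *
        c ^ j * (1 - c) ^ (n + 1 - j) := by
      rw [Finset.mul_sum, ← Finset.sum_sub_distrib]
      exact Finset.sum_congr rfl fun j _ => by ring
    rw [this, e1, e2]
    push_cast
    field_simp
  rw [e3]
  refine Finset.sum_le_sum fun j _ => ?_
  have h2 : (j : ℝ) - k ≤ ((j - k : ℕ) : ℝ) := by
    rcases Nat.le_total k j with h | h
    · rw [Nat.cast_sub h]
    · have : (j : ℝ) ≤ k := by exact_mod_cast h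
      have h3 : (0 : ℝ) ≤ ((j - k : ℕ) : ℝ) := Nat.cast_nonneg _
      linarith
  have h3 : (0 : ℝ) ≤ ((n + 1).choose j : ℝ) * c ^ j * (1 - c) ^ (n + 1 - j) := by positivity
  nlinarith

theorem gk_bdd (n k : ℕ) {w : ℝ} (hw : w ≤ 1) :
    BddAbove (Set.range fun c : Set.Icc (0 : ℝ) 1 => ((c : ℝ) * w - tl n k c)) := by
  refine ⟨1, ?_⟩
  rintro _ ⟨c, rfl⟩
  have h := tl_nonneg n k c.2.1 c.2.2
  have h1 := c.2.1
  have h2 := c.2.2
  simp only
  nlinarith

theorem le_gk (n k : ℕ) {w : ℝ} (hw : w ≤ 1) {c : ℝ} (h0 : 0 ≤ c) (h1 : c ≤ 1) :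
    c * w - tl n k c ≤ gk n k w :=
  le_ciSup (gk_bdd n k hw) ⟨c, h0, h1⟩

/-- **Piece (B).** -/
theorem stEnds : StEnds := by
  intro n k hk hkn
  have hn : (0 : ℝ) < (n : ℝ) + 1 := by positivity
  have : Nonempty (Set.Icc (0 : ℝ) 1) := ⟨⟨0, by simp⟩⟩
  constructor
  · refine le_antisymm (ciSup_le fun c => ?_) ?_
    · have h := tl_nonneg n k c.2.1 c.2.2
      linarith
    · have h := le_gk n k (w := 0) (by norm_num) (c := 0) le_rfl (by norm_num)
      rw [tl_zero] at h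
      linarith
  · refine le_antisymm (ciSup_le fun c => ?_) ?_
    · have h := le_tl n k c.2.1 c.2.2
      linarith
    · have h := le_gk n k (w := 1) le_rfl (c := 1) (by norm_num) le_rfl
      rw [tl_one n k (by omega)] at h
      linarith

end Pool.Agent.T9h58.Ls
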